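import Pool.Agent.P.MP_048963_co.Main

namespace Pool.Agent.Results.MP_048963_co.NinePoints

open Pool.Agent.P.MP_048963_co

/-- A finite two-coloured planar set (red points `R`, blue points `B`), not contained in a line or a
circle, with no monochromatic circle and no three collinear points of one colour, neither of whose
colour classes lies on a circle or a line, and which lies up to inversion on no conic, no union of
two circles, no circular cubic and no inverse of a circular cubic. -/
theorem result :
    ∃ R B : Set Pt, R.Finite ∧ B.Finite ∧ Disjoint R B ∧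
      ¬ Collinear ℝ (R ∪ B) ∧ ¬ OnCircle (R ∪ B) ∧
      (∀ C : Set Pt, IsCircle C → ¬ Monochromatic R B C) ∧
      (∀ T : Set Pt, T ⊆ R ∨ T ⊆ B → 3 ≤ T.ncard → ¬ Collinear ℝ T) ∧
      ¬ OnCircle R ∧ ¬ OnCircle B ∧ ¬ Collinear ℝ R ∧ ¬ Collinear ℝ B ∧
      ∀ Γ : Set Pt,
        IsConic Γ ∨ IsTwoCircles Γ ∨ IsCircularCubic Γ ∨ IsBicircularQuartic Γ →
          ¬ LiesUpToInversion (R ∪ B) Γ :=
  main

end Pool.Agent.Results.MP_048963_co.NinePoints
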